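import Pool.Agent.H484.AL.Stm

/-!
# Project AL (helper484), part UNI: union over a set of words
-/

set_option autoImplicit false

namespace Pool.Agent.H484.AL

open Finset
open scoped Classical

theorem uni_good_mono {d R N : ℕ} {a : Fin d → ℕ} {s s' : ℝ} (h : Good d R N a s) (hs : s' ≤ s) :
    Good d R N a s' := by
  obtain ⟨K, h1, h2⟩ := h
  exact ⟨K, h1, hs.trans h2⟩

theorem uni_y {M a0 c y y' : ℕ} (hM : Nat.Coprime a0 M) (hy : y < M) (hy' : y' < M)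
    (h : M ∣ a0 * y + c) (h' : M ∣ a0 * y' + c) : y = y' := by
  have h1 : a0 * y + c ≡ a0 * y' + c [MOD M] :=
    ((Nat.modEq_zero_iff_dvd).2 h).trans ((Nat.modEq_zero_iff_dvd).2 h').symm
  have h2 : a0 * y ≡ a0 * y' [MOD M] := Nat.ModEq.add_right_cancel' c h1
  have h3 : y ≡ y' [MOD M] := Nat.ModEq.cancel_left_of_coprime (by rwa [Nat.gcd_comm]) h2
  exact Nat.ModEq.eq_of_lt_of_lt h3 hy hy'

theorem t_UNI (hDISJ : S_DISJ) (hCNTI : S_CNTI) (hCYL : S_CYL) : S_UNI := by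
  intro R c0 H g M a0 n D α W F hR hc0 hg hM hcop hW hF
  have hw1 : ∀ w ∈ W, w.length = n ∧ ∀ c ∈ w, 1 ≤ c := by
    intro w hw
    obtain ⟨h1, h2⟩ := (mem_words D n w).1 (hW hw)
    exact ⟨h1, fun c hc => (h2 c hc).1⟩
  let Sw : List ℕ → Finset ℕ := fun w =>
    (range M).filter (fun b => ∃ y : ℕ, y < M ∧ M ∣ a0 * y + α 0 + g * b ∧
      InI w ((y : ℝ) / (M : ℝ)))
  let T : Finset ℕ := (range M).filter (fun b => Good 2 R (g * M) (vec 1 g a0 α (fun _ => b)) F)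
  have h1 : ∑ w ∈ W, ((M : ℝ) * len w - 1 - (g : ℝ)) ≤ ∑ w ∈ W, ((Sw w).card : ℝ) :=
    Finset.sum_le_sum fun w hw => hCNTI g M a0 (α 0) w hg hM hcop (hw1 w hw).2
  have hdisj : (W : Set (List ℕ)).PairwiseDisjoint Sw := by
    intro w hw w' hw' hne
    show Disjoint (Sw w) (Sw w')
    rw [Finset.disjoint_left]
    intro b hb hb'
    obtain ⟨-, y, hy, hd, hI⟩ := Finset.mem_filter.1 hb
    obtain ⟨-, y', hy', hd', hI'⟩ := Finset.mem_filter.1 hb'
    rw [add_assoc] at hd hd'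
    have hyy := uni_y hcop hy hy' hd hd'
    subst hyy
    exact hne (hDISJ w w' _ (hw1 w hw).2 (hw1 w' hw').2
      ((hw1 w hw).1.trans (hw1 w' hw').1.symm) hI hI')
  have h2 : ∑ w ∈ W, (Sw w).card = (W.biUnion Sw).card := (Finset.card_biUnion hdisj).symm
  have h3 : W.biUnion Sw ⊆ T := by
    intro b hb
    obtain ⟨w, hw, hb⟩ := Finset.mem_biUnion.1 hb
    obtain ⟨hbM, y, hy, hd, hI⟩ := Finset.mem_filter.1 hb
    refine Finset.mem_filter.2 ⟨hbM, ?_⟩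
    exact uni_good_mono (hCYL R c0 H g M a0 y α (fun _ => b) w hR hc0 hg hM (hw1 w hw).2
      (hF w hw).1 hd hI) (hF w hw).2
  have h4 : T.card ≤ (univ.filter (fun b : Fin 1 → Fin M => Good 2 R (g * M)
      (vec 1 g a0 α (fun i => (b i : ℕ))) F)).card := by
    refine le_trans (Finset.card_le_card (t := (univ.filter (fun b : Fin 1 → Fin M =>
      Good 2 R (g * M) (vec 1 g a0 α (fun i => (b i : ℕ))) F)).image
        (fun b => ((b 0 : Fin M) : ℕ))) ?_) Finset.card_image_le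
    intro b hb
    obtain ⟨hbM, hG⟩ := Finset.mem_filter.1 hb
    refine Finset.mem_image.2 ⟨fun _ => ⟨b, Finset.mem_range.1 hbM⟩, ?_, rfl⟩
    exact Finset.mem_filter.2 ⟨Finset.mem_univ _, hG⟩
  calc ∑ w ∈ W, ((M : ℝ) * len w - 1 - (g : ℝ)) ≤ ∑ w ∈ W, ((Sw w).card : ℝ) := h1
    _ = ((∑ w ∈ W, (Sw w).card : ℕ) : ℝ) := by push_cast; rfl
    _ = ((W.biUnion Sw).card : ℝ) := by rw [h2]
    _ ≤ (T.card : ℝ) := by exact_mod_cast Finset.card_le_card h3
    _ ≤ _ := by exact_mod_cast h4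

end Pool.Agent.H484.AL
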